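import Mathlib
import Pool.Agent.V11302.ConnCore
import Pool.Agent.V11302.ConnChk0
import Pool.Agent.V11302.ConnChk1
import Pool.Agent.V11302.ConnChk2

/-!
A prime `p > 7` (namely `p = 1113643`) for which the functional graph of `x ↦ x ^ 2 + a` on `ZMod p`
(with `a = 1/4`) is connected and its only cycle is a fixed point.
-/

namespace Pool.Agent.V11302.Conn

theorem go_sound (v : ℕ) : ∀ (fuel y : ℕ), go v fuel y = true → ∃ j, 1 ≤ j ∧ g^[j] y < v := by
  intro fuel
  induction fuel with
  | zero => intro y h; exact absurd h (by simp [go])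
  | succ n ih =>
    intro y h
    have key : go v (n+1) y = Bool.rec true
         (Bool.rec true
           (Bool.rec true
             (Bool.rec true (go v n (g (g (g (g y))))) (Nat.ble v (g (g (g (g y))))))
           (Nat.ble v (g (g (g y)))))
         (Nat.ble v (g (g y))))
       (Nat.ble v (g y)) := rfl
    rw [key] at h
    by_cases h1 : g y < v
    · exact ⟨1, le_rfl, h1⟩
    · have e1 : Nat.ble v (g y) = true := Nat.ble_eq.mpr (not_lt.mp h1)
      rw [e1] at h
      by_cases h2 : g (g y) < v
      · exact ⟨2, by norm_num, h2⟩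
      · have e2 : Nat.ble v (g (g y)) = true := Nat.ble_eq.mpr (not_lt.mp h2)
        rw [e2] at h
        by_cases h3 : g (g (g y)) < v
        · exact ⟨3, by norm_num, h3⟩
        · have e3 : Nat.ble v (g (g (g y))) = true := Nat.ble_eq.mpr (not_lt.mp h3)
          rw [e3] at h
          by_cases h4 : g (g (g (g y))) < v
          · exact ⟨4, by norm_num, h4⟩
          · have e4 : Nat.ble v (g (g (g (g y)))) = true := Nat.ble_eq.mpr (not_lt.mp h4)
            rw [e4] at h
            obtain ⟨j, hj1, hj2⟩ := ih _ h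
            exact ⟨j + 4, by omega, by simpa [Function.iterate_add_apply] using hj2⟩

theorem all_sound : ∀ (k lo : ℕ), all k lo = true → ∀ y, lo ≤ y → y < lo + 2 ^ k →
    ∃ j, 1 ≤ j ∧ g^[j] (g y) < g y := by
  intro k
  induction k with
  | zero =>
    intro lo h y h1 h2
    have : y = lo := by simp at h2; omega
    subst this
    have h' : go (g y) 540 (g y) = true := h
    exact go_sound _ _ _ h'
  | succ k ih =>
    intro lo h y h1 h2
    have key : all (k+1) lo = Bool.rec false (all k (lo + 2 ^ k)) (all k lo) := rfl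
    rw [key] at h
    by_cases ha : all k lo = true
    · rw [ha] at h
      by_cases hy : y < lo + 2 ^ k
      · exact ih lo ha y h1 hy
      · exact ih (lo + 2 ^ k) h y (not_lt.mp hy) (by rw [pow_succ] at h2; omega)
    · rw [Bool.not_eq_true] at ha
      rw [ha] at h
      exact absurd h (by simp)

theorem descend (y : ℕ) (h1 : 1 ≤ y) (h2 : y ≤ 556821) : ∃ j, 1 ≤ j ∧ g^[j] (g y) < g y := by
  rcases lt_or_ge y 65537 with h | h
  · exact all_sound 16 1 chk0 y h1 (by norm_num; omega)
  rcases lt_or_ge y 131073 with h' | h'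
  · exact all_sound 16 65537 chk1 y h (by norm_num; omega)
  rcases lt_or_ge y 196609 with h | h
  · exact all_sound 16 131073 chk2 y h' (by norm_num; omega)
  rcases lt_or_ge y 262145 with h' | h'
  · exact all_sound 16 196609 chk3 y h (by norm_num; omega)
  rcases lt_or_ge y 327681 with h | h
  · exact all_sound 16 262145 chk4 y h' (by norm_num; omega)
  rcases lt_or_ge y 393217 with h' | h'
  · exact all_sound 16 327681 chk5 y h (by norm_num; omega)
  rcases lt_or_ge y 458753 with h | h
  · exact all_sound 16 393217 chk6 y h' (by norm_num; omega)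
  rcases lt_or_ge y 524289 with h' | h'
  · exact all_sound 16 458753 chk7 y h (by norm_num; omega)
  · exact all_sound 15 524289 chk8 y h' (by norm_num; omega)

theorem g_eq (z : ℕ) : g z = z * (z + 1) % 1113643 := rfl

theorem g_lt (z : ℕ) : g z < 1113643 := Nat.mod_lt _ (by norm_num)

theorem g_twin (y : ℕ) (h : y < 1113643) : g (1113642 - y) = g y := by
  rw [g_eq, g_eq]
  have h2 : (1113642 - y) * (1113642 - y + 1) + y * (y + 1) * 1 + 1113643 * (2 * y) =
      y * (y + 1) * 2 + 1113643 * 1113642 := by
    obtain ⟨t, ht⟩ : ∃ t, t + y = 1113642 := ⟨1113642 - y, by omega⟩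
    have : 1113642 - y = t := by omega
    rw [this]
    nlinarith
  have h3 : ((1113642 - y) * (1113642 - y + 1)) ≡ (y * (y+1)) [MOD 1113643] := by
    have h4 : ((1113642 - y) * (1113642 - y + 1)) + (y * (y + 1)) ≡ (y * (y + 1)) + (y * (y + 1)) [MOD 1113643] := by
      have e1 : ((1113642 - y) * (1113642 - y + 1)) + (y * (y + 1)) ≡
          (1113642 - y) * (1113642 - y + 1) + y * (y + 1) * 1 + 1113643 * (2 * y) [MOD 1113643] := by
        simp [Nat.ModEq]
      have e2 : y * (y + 1) * 2 + 1113643 * 1113642 ≡ (y * (y + 1)) + (y * (y + 1)) [MOD 1113643] := by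
        have : (y * (y + 1)) + (y * (y + 1)) = y * (y + 1) * 2 := by ring
        rw [this]
        change (y * (y + 1) * 2 + 1113643 * 1113642) % 1113643 = y * (y + 1) * 2 % 1113643
        rw [Nat.add_mul_mod_self_left]
      rw [h2] at e1
      exact e1.trans e2
    exact Nat.ModEq.add_right_cancel' _ h4
  exact h3

theorem g_zero_of (y : ℕ) (h : y = 0 ∨ y = 1113642) : g y = 0 := by
  rcases h with rfl | rfl <;> decide

theorem reach : ∀ v, (∃ y < 1113643, g y = v) → ∃ k, g^[k] v = 0 := by
  intro v
  induction v using Nat.strong_induction_on with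
  | _ v ih =>
    rintro ⟨y, hy, rfl⟩
    rcases Nat.eq_zero_or_pos (g y) with h0 | hpos
    · exact ⟨0, h0⟩
    have hy0 : y ≠ 0 := fun h => by
      have := g_zero_of y (Or.inl h); omega
    have hy1 : y ≠ 1113642 := fun h => by
      have := g_zero_of y (Or.inr h); omega
    have hd : ∃ j, 1 ≤ j ∧ g^[j] (g y) < g y := by
      rcases le_or_gt y 556821 with hle | hgt
      · exact descend y (by omega) hle
      · have := descend (1113642 - y) (by omega) (by omega)
        rwa [g_twin y hy] at this
    obtain ⟨j, hj1, hj2⟩ := hd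
    obtain ⟨i, rfl⟩ : ∃ i, j = i + 1 := ⟨j - 1, by omega⟩
    rw [Function.iterate_succ_apply'] at hj2
    have hlt : g^[i] (g y) < 1113643 := by
      cases i with
      | zero => exact g_lt _
      | succ n => rw [Function.iterate_succ_apply']; exact g_lt _
    obtain ⟨k, hk⟩ := ih _ hj2 ⟨_, hlt, rfl⟩
    refine ⟨k + (i + 1), ?_⟩
    rw [Function.iterate_add_apply, Function.iterate_succ_apply']
    exact hk

theorem reach' (y : ℕ) (hy : y < 1113643) : ∃ k, g^[k] y = 0 := by
  obtain ⟨k, hk⟩ := reach (g y) ⟨y, hy, rfl⟩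
  exact ⟨k + 1, hk⟩

end Pool.Agent.V11302.Conn

namespace Pool.Agent.Results.MP_28a92f_nt.ConnectedFixedPoint

open Pool.Agent.V11302.Conn

/-- There is a prime `p > 7` (namely `1113643`) and `a ∈ F_p` such that the functional graph of
`x ↦ x ^ 2 + a` on `F_p` is connected and its only cycle is a fixed point `c`. -/
theorem result : ∃ p : ℕ, p = 1113643 ∧ p.Prime ∧ 7 < p ∧ ∃ a : ZMod p,
    (SimpleGraph.fromRel (fun x y : ZMod p => x ^ 2 + a = y)).Connected ∧
    ∃ c : ZMod p, c ^ 2 + a = c ∧ Function.periodicPts (fun x : ZMod p => x ^ 2 + a) = {c} := by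
  have hp : Nat.Prime 1113643 := by norm_num
  have h2 : (2 : ZMod 1113643) ≠ 0 := by decide
  have : Fact (Nat.Prime 1113643) := ⟨hp⟩
  refine ⟨1113643, rfl, hp, by norm_num, (4 : ZMod 1113643)⁻¹, ?_⟩
  set a : ZMod 1113643 := 4⁻¹ with ha
  set c : ZMod 1113643 := 2⁻¹ with hc
  set f : ZMod 1113643 → ZMod 1113643 := fun x => x ^ 2 + a with hf
  have hc2 : 2 * c = 1 := mul_inv_cancel₀ h2
  have hca : c ^ 2 = a := by
    rw [hc, ha, inv_pow]; norm_num
  have hfc : c ^ 2 + a = c := by
    rw [← hca]
    have : c ^ 2 + c ^ 2 = (2 * c) * c := by ring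
    rw [this, hc2, one_mul]
  have hstep : ∀ x : ZMod 1113643, f x - c = (x - c) * ((x - c) + 1) := by
    intro x
    have : f x = x ^ 2 + c ^ 2 := by rw [hf, ← hca]
    rw [this]
    have e : (x - c) * ((x - c) + 1) = x ^ 2 + c ^ 2 - (2 * c) * x + x - c := by ring
    rw [e, hc2]; ring
  have hval : ∀ x : ZMod 1113643, (f x - c).val = g ((x - c).val) := by
    intro x
    rw [hstep, g_eq]
    have : (x - c) * ((x - c) + 1) = (((x - c).val * ((x - c).val + 1) : ℕ) : ZMod 1113643) := by
      push_cast
      rw [ZMod.natCast_zmod_val]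
    rw [this, ZMod.val_natCast]
  have hiter : ∀ (k : ℕ) (x : ZMod 1113643), (f^[k] x - c).val = g^[k] ((x - c).val) := by
    intro k
    induction k with
    | zero => intro x; rfl
    | succ n ih => intro x; rw [Function.iterate_succ_apply, Function.iterate_succ_apply, ih, hval]
  have hreach : ∀ x : ZMod 1113643, ∃ k, f^[k] x = c := by
    intro x
    obtain ⟨k, hk⟩ := reach' ((x - c).val) (ZMod.val_lt _)
    refine ⟨k, ?_⟩
    rw [← hiter] at hk
    rw [ZMod.val_eq_zero] at hk
    exact sub_eq_zero.mp hk
  refine ⟨?_, c, hfc, ?_⟩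
  · have hadj : ∀ x : ZMod 1113643,
        (SimpleGraph.fromRel (fun x y : ZMod 1113643 => x ^ 2 + a = y)).Reachable x (f x) := by
      intro x
      by_cases hx : x = f x
      · rw [← hx]
      · apply SimpleGraph.Adj.reachable
        rw [SimpleGraph.fromRel_adj]
        exact ⟨hx, Or.inl rfl⟩
    have hit : ∀ (k : ℕ) (x : ZMod 1113643),
        (SimpleGraph.fromRel (fun x y : ZMod 1113643 => x ^ 2 + a = y)).Reachable x (f^[k] x) := by
      intro k
      induction k with
      | zero => intro x; exact SimpleGraph.Reachable.refl _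
      | succ n ih => intro x; rw [Function.iterate_succ_apply]; exact (hadj x).trans (ih (f x))
    have hto : ∀ x : ZMod 1113643,
        (SimpleGraph.fromRel (fun x y : ZMod 1113643 => x ^ 2 + a = y)).Reachable x c := by
      intro x
      obtain ⟨k, hk⟩ := hreach x
      rw [← hk]; exact hit k x
    have : Nonempty (ZMod 1113643) := ⟨0⟩
    exact ⟨fun x y => (hto x).trans (hto y).symm⟩
  · ext x
    rw [Set.mem_singleton_iff]
    constructor
    · rintro ⟨n, hn, hx⟩
      obtain ⟨k, hk⟩ := hreach x
      have hfix : ∀ m, f^[m] c = c := fun m => Function.iterate_fixed hfc m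
      have h1 : f^[n * k] x = x := by
        have := (hx : Function.IsPeriodicPt f n x).mul_const k
        exact this
      have h2 : n * k = (n * k - k) + k := by
        have : k ≤ n * k := Nat.le_mul_of_pos_left k hn
        omega
      rw [h2, Function.iterate_add_apply, hk, hfix] at h1
      exact h1.symm
    · rintro rfl
      exact ⟨1, one_pos, hfc⟩

end Pool.Agent.Results.MP_28a92f_nt.ConnectedFixedPoint
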